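import Mathlib
import Pool.Agent.Y293.FA.Base

/-!
# Homogeneous self-similar measures: existence and energy
-/

set_option autoImplicit false

namespace Pool.Agent.Y988.FA

open MeasureTheory Set Filter Topology
open scoped ENNReal
open Pool.Agent.Y293.FA

noncomputable section

variable {N : ℕ}

/-- the uniform law on the letters -/
def un (N : ℕ) : Measure (Fin N) := (N : ℝ≥0∞)⁻¹ • ∑ i : Fin N, Measure.dirac i

theorem un_apply (t : Set (Fin N)) :
    un N t = (N : ℝ≥0∞)⁻¹ * ∑ i : Fin N, t.indicator 1 i := by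
  unfold un
  rw [Measure.smul_apply, Measure.finsetSum_apply, smul_eq_mul]
  congr 1
  refine Finset.sum_congr rfl fun i _ => ?_
  rw [Measure.dirac_apply' _ (MeasurableSet.of_discrete)]

instance un_prob [NeZero N] : IsProbabilityMeasure (un N) := by
  constructor
  rw [un_apply]
  simp only [indicator_univ, Pi.one_apply, Finset.sum_const, Finset.card_univ, Fintype.card_fin,
    nsmul_eq_mul, mul_one]
  exact ENNReal.inv_mul_cancel (by exact_mod_cast NeZero.ne N) (ENNReal.natCast_ne_top N)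

/-- adding a first letter -/
def cn (i : Fin N) (w : ℕ → Fin N) : ℕ → Fin N := fun n => Nat.casesOn n i w

theorem cn_zero (i : Fin N) (w : ℕ → Fin N) : cn i w 0 = i := rfl

theorem cn_succ (i : Fin N) (w : ℕ → Fin N) (n : ℕ) : cn i w (n + 1) = w n := rfl

theorem measurable_cn (i : Fin N) : Measurable (cn i) := by
  rw [measurable_pi_iff]
  intro n
  cases n with
  | zero => exact measurable_const
  | succ n => exact measurable_pi_apply n

open Classical in
theorem cn_preimage (i : Fin N) (s : Finset ℕ) (t : ℕ → Set (Fin N)) :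
    cn i ⁻¹' (Set.pi s t) = if 0 ∈ s → i ∈ t 0 then
      Set.pi (s.preimage Nat.succ (Nat.succ_injective.injOn)) (fun n => t (n + 1)) else ∅ := by
  ext w
  split_ifs with h
  · simp only [mem_preimage, Set.mem_pi, Finset.mem_coe, Finset.mem_preimage]
    constructor
    · intro h1 n hn
      exact h1 (n + 1) hn
    · intro h1 n hn
      cases n with
      | zero => exact h hn
      | succ n => exact h1 n hn
  · simp only [mem_preimage, Set.mem_pi, Finset.mem_coe, mem_empty_iff_false, iff_false]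
    intro h1
    exact h fun h0 => h1 0 h0

/-- the law of an infinite word -/
def PP (N : ℕ) [NeZero N] : Measure (ℕ → Fin N) := Measure.infinitePi fun _ => un N

instance [NeZero N] : IsProbabilityMeasure (PP N) := by unfold PP; infer_instance

theorem PP_shift [NeZero N] : PP N = (N : ℝ≥0∞)⁻¹ • ∑ i : Fin N, (PP N).map (cn i) := by
  classical
  symm
  unfold PP
  apply Measure.eq_infinitePi
  intro s t ht
  have hms : MeasurableSet (Set.pi (s : Set ℕ) t) :=
    MeasurableSet.pi s.countable_toSet fun i _ => ht i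
  rw [Measure.smul_apply, Measure.finsetSum_apply, smul_eq_mul]
  set s' := s.preimage Nat.succ (Nat.succ_injective.injOn) with hs'
  have h1 : ∀ i : Fin N, (Measure.map (cn i) (Measure.infinitePi fun _ : ℕ => un N))
      (Set.pi (s : Set ℕ) t) = (if 0 ∈ s then (t 0).indicator 1 i else 1) *
        ∏ n ∈ s', un N (t (n + 1)) := by
    intro i
    rw [Measure.map_apply (measurable_cn i) hms, cn_preimage]
    by_cases h0 : 0 ∈ s
    · by_cases hi : i ∈ t 0
      · rw [if_pos (fun _ => hi), if_pos h0, indicator_of_mem hi, Pi.one_apply, one_mul,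
          Measure.infinitePi_pi]
        intro n _
        exact ht (n + 1)
      · rw [if_neg (fun h => hi (h h0)), if_pos h0, indicator_of_notMem hi, zero_mul]
        simp
    · rw [if_pos (fun h => absurd h h0), if_neg h0, one_mul, Measure.infinitePi_pi]
      intro n _
      exact ht (n + 1)
  have h2 : ∏ n ∈ s, un N (t n) = (if 0 ∈ s then un N (t 0) else 1) *
      ∏ n ∈ s', un N (t (n + 1)) := by
    have h3 : ∏ n ∈ s', un N (t (n + 1)) = ∏ n ∈ s, (if n = 0 then 1 else un N (t n)) := by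
      rw [hs']
      rw [← Finset.prod_preimage Nat.succ s (Nat.succ_injective.injOn)
        (fun n => if n = 0 then 1 else un N (t n))]
      · refine Finset.prod_congr rfl fun n _ => ?_
        rw [if_neg (Nat.succ_ne_zero n)]
      · intro n _ hn
        have : n = 0 := by
          by_contra h
          obtain ⟨m, rfl⟩ := Nat.exists_eq_succ_of_ne_zero h
          exact hn ⟨m, rfl⟩
        rw [if_pos this]
    rw [h3]
    have h4 : ∏ n ∈ s, un N (t n) = (∏ n ∈ s, if n = 0 then un N (t 0) else 1) *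
        ∏ n ∈ s, (if n = 0 then 1 else un N (t n)) := by
      rw [← Finset.prod_mul_distrib]
      refine Finset.prod_congr rfl fun n _ => ?_
      by_cases h : n = 0
      · rw [if_pos h, if_pos h, mul_one, h]
      · rw [if_neg h, if_neg h, one_mul]
    rw [h4]
    congr 1
    rw [Finset.prod_ite_eq']
  rw [Finset.sum_congr rfl fun i _ => h1 i, h2, ← Finset.sum_mul, ← mul_assoc]
  congr 1
  by_cases h0 : 0 ∈ s
  · simp only [if_pos h0]
    rw [un_apply]
  · simp only [if_neg h0, Finset.sum_const, Finset.card_univ, Fintype.card_fin, nsmul_eq_mul,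
      mul_one]
    exact ENNReal.inv_mul_cancel (by exact_mod_cast NeZero.ne N) (ENNReal.natCast_ne_top N)

/-- the point of a word -/
def XX (c : ℂ) (T : Fin N → ℂ) (w : ℕ → Fin N) : ℂ := ∑' n, c ^ n * T (w n)

theorem summ {c : ℂ} (hc : ‖c‖ < 1) (T : Fin N → ℂ) (w : ℕ → Fin N) :
    Summable fun n => c ^ n * T (w n) := by
  apply Summable.of_norm_bounded (g := fun n => ‖c‖ ^ n * ∑ i, ‖T i‖)
  · exact (summable_geometric_of_lt_one (norm_nonneg _) hc).mul_right _
  · intro n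
    rw [norm_mul, norm_pow]
    refine mul_le_mul_of_nonneg_left ?_ (by positivity)
    exact Finset.single_le_sum (f := fun i => ‖T i‖) (fun i _ => norm_nonneg _)
      (Finset.mem_univ (w n))

theorem measurable_XX {c : ℂ} (hc : ‖c‖ < 1) (T : Fin N → ℂ) : Measurable (XX c T) := by
  refine measurable_of_tendsto_metrizable (f := fun n w => ∑ k ∈ Finset.range n,
    c ^ k * T (w k)) ?_ ?_
  · intro n
    refine Finset.measurable_fun_sum _ fun k _ => ?_
    exact ((measurable_of_finite T).comp (measurable_pi_apply k)).const_mul _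
  · rw [tendsto_pi_nhds]
    intro w
    exact (summ hc T w).hasSum.tendsto_sum_nat

theorem XX_cn {c : ℂ} (hc : ‖c‖ < 1) (T : Fin N → ℂ) (i : Fin N) (w : ℕ → Fin N) :
    XX c T (cn i w) = c * XX c T w + T i := by
  unfold XX
  rw [(summ hc T (cn i w)).tsum_eq_zero_add]
  simp only [cn_zero, cn_succ, pow_zero, one_mul]
  rw [← tsum_mul_left, add_comm]
  congr 1
  refine tsum_congr fun n => ?_
  rw [pow_succ]
  ring

theorem XX_mem {c : ℂ} (hc : ‖c‖ < 1) (T : Fin N → ℂ) {E : Set ℂ} (hE : IsClosed E)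
    (hne : E.Nonempty) (hmap : ∀ i, ∀ z ∈ E, c * z + T i ∈ E) (w : ℕ → Fin N) :
    XX c T w ∈ E := by
  obtain ⟨z0, hz0⟩ := hne
  have h1 : ∀ n : ℕ, ∀ v : ℕ → Fin N, ∑ k ∈ Finset.range n, c ^ k * T (v k) + c ^ n * z0 ∈ E := by
    intro n
    induction n with
    | zero => intro v; simpa using hz0
    | succ n ih =>
      intro v
      have h2 := hmap (v 0) _ (ih fun k => v (k + 1))
      have h3 : ∑ k ∈ Finset.range (n + 1), c ^ k * T (v k) + c ^ (n + 1) * z0 =
          c * (∑ k ∈ Finset.range n, c ^ k * T (v (k + 1)) + c ^ n * z0) + T (v 0) := by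
        rw [Finset.sum_range_succ', mul_add, Finset.mul_sum, pow_zero, one_mul]
        have : ∑ k ∈ Finset.range n, c ^ (k + 1) * T (v (k + 1)) =
            ∑ k ∈ Finset.range n, c * (c ^ k * T (v (k + 1))) := by
          refine Finset.sum_congr rfl fun k _ => ?_
          rw [pow_succ]; ring
        rw [this, pow_succ]
        ring
      rw [h3]
      exact h2
  have h4 : Tendsto (fun n => ∑ k ∈ Finset.range n, c ^ k * T (w k) + c ^ n * z0) atTop
      (𝓝 (XX c T w + 0 * z0)) := by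
    refine ((summ hc T w).hasSum.tendsto_sum_nat).add ?_
    exact (tendsto_pow_atTop_nhds_zero_of_norm_lt_one hc).mul_const z0
  rw [zero_mul, add_zero] at h4
  exact hE.mem_of_tendsto h4 (Eventually.of_forall fun n => h1 n w)

/-- the self-similar measure -/
def mm [NeZero N] (c : ℂ) (T : Fin N → ℂ) : Measure ℂ := (PP N).map (XX c T)

theorem mm_prob [NeZero N] {c : ℂ} (hc : ‖c‖ < 1) (T : Fin N → ℂ) :
    IsProbabilityMeasure (mm c T) :=
  Measure.isProbabilityMeasure_map (measurable_XX hc T).aemeasurable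

theorem mm_supp [NeZero N] {c : ℂ} (hc : ‖c‖ < 1) (T : Fin N → ℂ) {E : Set ℂ} (hE : IsClosed E)
    (hne : E.Nonempty) (hmap : ∀ i, ∀ z ∈ E, c * z + T i ∈ E) : mm c T Eᶜ = 0 := by
  unfold mm
  rw [Measure.map_apply (measurable_XX hc T) hE.measurableSet.compl]
  have : XX c T ⁻¹' Eᶜ = ∅ := by
    ext w
    simp only [mem_preimage, mem_compl_iff, mem_empty_iff_false, iff_false, not_not]
    exact XX_mem hc T hE hne hmap w
  rw [this, measure_empty]

theorem mm_self [NeZero N] {c : ℂ} (hc : ‖c‖ < 1) (T : Fin N → ℂ) :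
    mm c T = (N : ℝ≥0∞)⁻¹ • ∑ i, (mm c T).map (fun z => c * z + T i) := by
  have hX := measurable_XX hc T
  have h1 : mm c T = ((N : ℝ≥0∞)⁻¹ • ∑ i : Fin N, (PP N).map (cn i)).map (XX c T) := by
    unfold mm
    rw [← PP_shift]
  conv_lhs => rw [h1]
  rw [Measure.map_smul]
  congr 1
  rw [← Measure.mapₗ_apply_of_measurable hX, map_sum]
  refine Finset.sum_congr rfl fun i _ => ?_
  rw [Measure.mapₗ_apply_of_measurable hX, Measure.map_map hX (measurable_cn i)]
  unfold mm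
  rw [Measure.map_map (by fun_prop) hX]
  congr 1
  funext w
  exact XX_cn hc T i w


/-- the truncated kernel -/
def kM (s : ℝ) (M : ℝ≥0∞) (x y : ℂ) : ℝ≥0∞ := min M (edist x y ^ (-s))

theorem measurable_kM (s : ℝ) (M : ℝ≥0∞) : Measurable fun p : ℂ × ℂ => kM s M p.1 p.2 := by
  unfold kM
  exact measurable_const.min (measurable_edist.pow_const _)

theorem measurable_kM_right (s : ℝ) (M : ℝ≥0∞) (x : ℂ) : Measurable fun y : ℂ => kM s M x y := by
  unfold kM
  exact measurable_const.min ((measurable_const.edist measurable_id).pow_const _)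

theorem kM_mono (s : ℝ) {M M' : ℝ≥0∞} (h : M ≤ M') (x y : ℂ) : kM s M x y ≤ kM s M' x y := by
  unfold kM
  exact min_le_min_right _ h

theorem kM_iSup (s : ℝ) (x y : ℂ) : ⨆ n : ℕ, kM s n x y = edist x y ^ (-s) := by
  have h := iSup_inf_eq (fun n : ℕ => (n : ℝ≥0∞)) (edist x y ^ (-s))
  rw [ENNReal.iSup_natCast, top_inf_eq] at h
  exact h.symm

theorem lint_self {μ : Measure ℂ} {c : ℂ} {T : Fin N → ℂ}
    (h : μ = (N : ℝ≥0∞)⁻¹ • ∑ i, μ.map (fun z => c * z + T i)) {G : ℂ → ℝ≥0∞}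
    (hG : Measurable G) :
    ∫⁻ x, G x ∂μ = (N : ℝ≥0∞)⁻¹ * ∑ i, ∫⁻ x, G (c * x + T i) ∂μ := by
  conv_lhs => rw [h]
  rw [lintegral_smul_measure, lintegral_finsetSum_measure, smul_eq_mul]
  congr 1
  refine Finset.sum_congr rfl fun i _ => ?_
  rw [lintegral_map hG (by fun_prop)]

theorem exists_sep {c : ℂ} {T : Fin N → ℂ} {E : Set ℂ} (hE : IsCompact E) (hne : E.Nonempty)
    (hd : ∀ i j, i ≠ j → ∀ x ∈ E, ∀ y ∈ E, c * x + T i ≠ c * y + T j) :
    ∃ ε : ℝ, 0 < ε ∧ ∀ i j, i ≠ j → ∀ x ∈ E, ∀ y ∈ E, ε ≤ dist (c * x + T i) (c * y + T j) := by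
  have h1 : ∀ p : Fin N × Fin N, ∃ ε : ℝ, 0 < ε ∧ (p.1 ≠ p.2 → ∀ x ∈ E, ∀ y ∈ E,
      ε ≤ dist (c * x + T p.1) (c * y + T p.2)) := by
    intro p
    by_cases hp : p.1 = p.2
    · exact ⟨1, one_pos, fun h => absurd hp h⟩
    · obtain ⟨q, hq, hmin⟩ := (hE.prod hE).exists_isMinOn (hne.prod hne)
        (f := fun q : ℂ × ℂ => dist (c * q.1 + T p.1) (c * q.2 + T p.2)) (by fun_prop)
      refine ⟨dist (c * q.1 + T p.1) (c * q.2 + T p.2),
        dist_pos.2 (hd _ _ hp _ hq.1 _ hq.2), fun _ x hx y hy => ?_⟩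
      exact hmin (show (x, y) ∈ E ×ˢ E from ⟨hx, hy⟩)
  choose f hf0 hf using h1
  rcases isEmpty_or_nonempty (Fin N × Fin N) with he | he
  · exact ⟨1, one_pos, fun i j => (he.false (i, j)).elim⟩
  · obtain ⟨p0, hp0⟩ := Finite.exists_min f
    exact ⟨f p0, hf0 p0, fun i j hij x hx y hy => (hp0 (i, j)).trans (hf (i, j) hij x hx y hy)⟩

theorem en_le {s : ℝ} {μ : Measure ℂ} [SFinite μ] {B : ℝ≥0∞}
    (h : ∀ n : ℕ, ∫⁻ x, ∫⁻ y, kM s n x y ∂μ ∂μ ≤ B) : en s μ ≤ B := by
  have h1 : ∀ x : ℂ, ∫⁻ y, edist x y ^ (-s) ∂μ = ⨆ n : ℕ, ∫⁻ y, kM s n x y ∂μ := by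
    intro x
    have h2 := lintegral_iSup (μ := μ) (f := fun (n : ℕ) (y : ℂ) => kM s n x y)
      (fun n => measurable_kM_right s n x)
      (fun m n hmn y => kM_mono s (by exact_mod_cast hmn) x y)
    rw [← h2]
    exact lintegral_congr fun y => (kM_iSup s x y).symm
  have h3 := lintegral_iSup (μ := μ) (f := fun (n : ℕ) (x : ℂ) => ∫⁻ y, kM s n x y ∂μ)
      (fun n => (measurable_kM s n).lintegral_prod_right')
      (fun m n hmn x => lintegral_mono fun y => kM_mono s (by exact_mod_cast hmn) x y)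
  unfold en
  rw [lintegral_congr h1, h3]
  exact iSup_le h

theorem J_le {μ : Measure ℂ} [IsProbabilityMeasure μ] [NeZero N] {c : ℂ} {T : Fin N → ℂ}
    {E : Set ℂ} (hc0 : c ≠ 0) (hc : ‖c‖ < 1)
    (h : μ = (N : ℝ≥0∞)⁻¹ • ∑ i, μ.map (fun z => c * z + T i)) (hμ : μ Eᶜ = 0) {s : ℝ}
    (hs : 0 < s) {ε : ℝ} (hε : 0 < ε)
    (hsep : ∀ i j, i ≠ j → ∀ x ∈ E, ∀ y ∈ E, ε ≤ dist (c * x + T i) (c * y + T j))
    (M : ℝ≥0∞) :
    ∫⁻ x, ∫⁻ y, kM s M x y ∂μ ∂μ ≤
      (N : ℝ≥0∞)⁻¹ * (ENNReal.ofReal ‖c‖ ^ (-s) * ∫⁻ x, ∫⁻ y, kM s M x y ∂μ ∂μ) +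
        ENNReal.ofReal ε ^ (-s) := by
  have hN0 : (N : ℝ≥0∞) ≠ 0 := by exact_mod_cast NeZero.ne N
  have hNt : (N : ℝ≥0∞) ≠ ⊤ := ENNReal.natCast_ne_top N
  set C : ℝ≥0∞ := ENNReal.ofReal ‖c‖ ^ (-s) with hC
  set D : ℝ≥0∞ := ENNReal.ofReal ε ^ (-s) with hD
  have hC1 : 1 ≤ C := by
    rw [hC, ENNReal.rpow_neg, ENNReal.one_le_inv]
    exact ENNReal.rpow_le_one (ENNReal.ofReal_le_one.2 hc.le) hs.le
  have hsame : ∀ (i : Fin N) (x y : ℂ), kM s M (c * x + T i) (c * y + T i) ≤ C * kM s M x y := by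
    intro i x y
    unfold kM
    have h1 : edist (c * x + T i) (c * y + T i) = ENNReal.ofReal ‖c‖ * edist x y := by
      rw [edist_dist, edist_dist, ← ENNReal.ofReal_mul (norm_nonneg _)]
      congr 1
      rw [dist_eq_norm, dist_eq_norm, ← norm_mul]
      congr 1
      ring
    rw [h1, ENNReal.mul_rpow_of_ne_top ENNReal.ofReal_ne_top (edist_ne_top _ _)]
    rcases le_total M (edist x y ^ (-s)) with h2 | h2
    · rw [min_eq_left h2]
      calc min M (C * edist x y ^ (-s)) ≤ M := min_le_left _ _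
        _ = 1 * M := (one_mul _).symm
        _ ≤ C * M := by gcongr
    · rw [min_eq_right h2]
      exact min_le_right _ _
  have hdiff : ∀ i j : Fin N, i ≠ j → ∀ x ∈ E, ∀ y ∈ E,
      kM s M (c * x + T i) (c * y + T j) ≤ D := by
    intro i j hij x hx y hy
    unfold kM
    refine (min_le_right _ _).trans ?_
    rw [hD, ENNReal.rpow_neg, ENNReal.rpow_neg, ENNReal.inv_le_inv]
    refine ENNReal.rpow_le_rpow ?_ hs.le
    rw [edist_dist]
    exact ENNReal.ofReal_le_ofReal (hsep i j hij x hx y hy)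
  have hae : ∀ᵐ x ∂μ, x ∈ E := by
    rw [ae_iff]
    exact hμ
  have hmy : ∀ x : ℂ, Measurable fun y => kM s M x y := measurable_kM_right s M
  have hin : ∀ i : Fin N, ∀ x ∈ E, ∫⁻ y, kM s M (c * x + T i) y ∂μ ≤
      (N : ℝ≥0∞)⁻¹ * (C * ∫⁻ y, kM s M x y ∂μ) + D := by
    intro i x hx
    rw [lint_self h (hmy _)]
    have h1 : ∀ j : Fin N, ∫⁻ y, kM s M (c * x + T i) (c * y + T j) ∂μ ≤
        (if j = i then C * ∫⁻ y, kM s M x y ∂μ else 0) + D := by
      intro j
      by_cases hj : j = i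
      · subst hj
        rw [if_pos rfl, ← lintegral_const_mul _ (hmy x)]
        exact (lintegral_mono fun y => hsame j x y).trans le_self_add
      · rw [if_neg hj, zero_add]
        calc ∫⁻ y, kM s M (c * x + T i) (c * y + T j) ∂μ ≤ ∫⁻ _, D ∂μ := by
              apply lintegral_mono_ae
              filter_upwards [hae] with y hy
              exact hdiff i j (Ne.symm hj) x hx y hy
          _ = D := by simp
    calc (N : ℝ≥0∞)⁻¹ * ∑ j, ∫⁻ y, kM s M (c * x + T i) (c * y + T j) ∂μ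
        ≤ (N : ℝ≥0∞)⁻¹ * ∑ j, ((if j = i then C * ∫⁻ y, kM s M x y ∂μ else 0) + D) := by
          gcongr with j _
          exact h1 j
      _ = (N : ℝ≥0∞)⁻¹ * (C * ∫⁻ y, kM s M x y ∂μ) + (N : ℝ≥0∞)⁻¹ * (N * D) := by
          rw [Finset.sum_add_distrib, Finset.sum_ite_eq' Finset.univ i]
          simp [mul_add]
      _ = _ := by
          rw [← mul_assoc (N : ℝ≥0∞)⁻¹ (N : ℝ≥0∞) D, ENNReal.inv_mul_cancel hN0 hNt, one_mul]
  have hmo : Measurable fun x => ∫⁻ y, kM s M x y ∂μ := (measurable_kM s M).lintegral_prod_right'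
  calc ∫⁻ x, ∫⁻ y, kM s M x y ∂μ ∂μ
      = (N : ℝ≥0∞)⁻¹ * ∑ i, ∫⁻ x, ∫⁻ y, kM s M (c * x + T i) y ∂μ ∂μ := lint_self h hmo
    _ ≤ (N : ℝ≥0∞)⁻¹ * ∑ i : Fin N, ((N : ℝ≥0∞)⁻¹ * (C * ∫⁻ x, ∫⁻ y, kM s M x y ∂μ ∂μ) + D) := by
        gcongr with i _
        calc ∫⁻ x, ∫⁻ y, kM s M (c * x + T i) y ∂μ ∂μ ≤
            ∫⁻ x, ((N : ℝ≥0∞)⁻¹ * (C * ∫⁻ y, kM s M x y ∂μ) + D) ∂μ := by
              apply lintegral_mono_ae
              filter_upwards [hae] with x hx
              exact hin i x hx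
          _ = _ := by
              rw [lintegral_add_right _ measurable_const, lintegral_const_mul _
                (hmo.const_mul C), lintegral_const_mul _ hmo]
              simp
    _ = _ := by
        rw [Finset.sum_const, Finset.card_univ, Fintype.card_fin, nsmul_eq_mul, ← mul_assoc,
          ENNReal.inv_mul_cancel hN0 hNt, one_mul]

/-- **existence and energy of homogeneous self-similar measures** -/
theorem ssm : S_SSM := by
  intro c hc0 hc N T E hE hne hmap hd s hs hN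
  have hN0 : N ≠ 0 := by
    rintro rfl
    norm_num at hN
  haveI : NeZero N := ⟨hN0⟩
  haveI := mm_prob hc T
  refine ⟨mm c T, inferInstance, mm_supp hc T hE.isClosed hne hmap, mm_self hc T, ?_⟩
  obtain ⟨ε, hε, hsep⟩ := exists_sep hE hne hd
  have hcp : 0 < ‖c‖ := norm_pos_iff.2 hc0
  have hNr : (0 : ℝ) < N := by exact_mod_cast Nat.pos_of_ne_zero hN0
  set Cr : ℝ := ‖c‖ ^ (-s) with hCr
  have hCr0 : 0 < Cr := Real.rpow_pos_of_pos hcp _
  have hCE : ENNReal.ofReal ‖c‖ ^ (-s) = ENNReal.ofReal Cr := by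
    rw [ENNReal.ofReal_rpow_of_pos hcp]
  have hDE : ENNReal.ofReal ε ^ (-s) = ENNReal.ofReal (ε ^ (-s)) := by
    rw [ENNReal.ofReal_rpow_of_pos hε]
  have hq : (N : ℝ)⁻¹ * Cr < 1 := by
    have h1 : Cr * ‖c‖ ^ s = 1 := by
      rw [hCr, ← Real.rpow_add hcp]
      simp
    have h2 : 0 < ‖c‖ ^ s := Real.rpow_pos_of_pos hcp _
    rw [inv_mul_lt_iff₀ hNr, mul_one]
    nlinarith
  refine lt_of_le_of_lt (en_le (B := ENNReal.ofReal (ε ^ (-s) / (1 - (N : ℝ)⁻¹ * Cr))) ?_)
    ENNReal.ofReal_lt_top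
  intro n
  have hJ := J_le hc0 hc (mm_self hc T) (mm_supp hc T hE.isClosed hne hmap) hs hε hsep n
  set J := ∫⁻ x, ∫⁻ y, kM s n x y ∂(mm c T) ∂(mm c T) with hJdef
  have hJn : J ≤ n := by
    calc J ≤ ∫⁻ _, ∫⁻ _, (n : ℝ≥0∞) ∂(mm c T) ∂(mm c T) :=
          lintegral_mono fun x => lintegral_mono fun y => min_le_left _ _
      _ = n := by simp
  have hJt : J ≠ ⊤ := ne_top_of_le_ne_top (ENNReal.natCast_ne_top n) hJn
  rw [hCE, hDE] at hJ
  obtain ⟨j, hj0, hjJ⟩ : ∃ j : ℝ, 0 ≤ j ∧ J = ENNReal.ofReal j :=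
    ⟨J.toReal, ENNReal.toReal_nonneg, (ENNReal.ofReal_toReal hJt).symm⟩
  have hNinv : (N : ℝ≥0∞)⁻¹ = ENNReal.ofReal (N : ℝ)⁻¹ := by
    rw [ENNReal.ofReal_inv_of_pos hNr, ENNReal.ofReal_natCast]
  rw [hjJ, hNinv, ← ENNReal.ofReal_mul hCr0.le, ← ENNReal.ofReal_mul (by positivity),
    ← ENNReal.ofReal_add (by positivity) (by positivity),
    ENNReal.ofReal_le_ofReal_iff (by positivity)] at hJ
  rw [hjJ]
  apply ENNReal.ofReal_le_ofReal
  rw [le_div_iff₀ (by linarith)]
  nlinarith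

end

end Pool.Agent.Y988.FA
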